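import Pool.Agent.H23.AF.Targets

/-! The loss of the interpolated exponents. -/

set_option autoImplicit false

namespace Pool.Agent.H60.AF

open Pool.Agent.H23.AF

theorem pf_CI : T_CI := by
  intro n w A s hn h1 h2 hA hs
  have hn1 : (1 : ℝ) ≤ (n : ℝ) := by exact_mod_cast hn
  have hw0 : 0 < w := by
    by_contra hc
    push Not at hc
    have : ((n : ℝ) + 1) * w ≤ 0 := mul_nonpos_of_nonneg_of_nonpos (by linarith) hc
    linarith
  obtain ⟨x, hx⟩ : ∃ x : ℝ, x = (n : ℝ) * w := ⟨_, rfl⟩
  obtain ⟨p, hp⟩ : ∃ p : ℝ, p = ((n : ℝ) + 1) * w - 1 := ⟨_, rfl⟩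
  obtain ⟨q, hq⟩ : ∃ q : ℝ, q = 1 - (n : ℝ) * w := ⟨_, rfl⟩
  have hp0 : 0 ≤ p := by rw [hp]; linarith
  have hq0 : 0 ≤ q := by rw [hq]; linarith
  have hw : w = p + q := by rw [hp, hq]; ring
  have hxq : x = 1 - q := by rw [hx, hq]; ring
  have hrel : ((n : ℝ) + 1) * q + (n : ℝ) * p = 1 := by rw [hp, hq]; ring
  have hpq : 5 * (p * q) ≤ p + q := by
    have e : p + q = (n : ℝ) * p ^ 2 + ((n : ℝ) + 1) * q ^ 2 + (2 * (n : ℝ) + 1) * (p * q) := by
      have : p + q = (p + q) * (((n : ℝ) + 1) * q + (n : ℝ) * p) := by rw [hrel]; ring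
      rw [this]; ring
    have h3 : 0 ≤ ((n : ℝ) - 1) * (p * q) :=
      mul_nonneg (by linarith) (mul_nonneg hp0 hq0)
    have h4 : 0 ≤ ((n : ℝ) - 1) * p ^ 2 := mul_nonneg (by linarith) (sq_nonneg _)
    have h5 : 0 ≤ ((n : ℝ) - 1) * q ^ 2 := mul_nonneg (by linarith) (sq_nonneg _)
    nlinarith [sq_nonneg (p - q), sq_nonneg q]
  have hq2 : q ≤ 1 / 2 := by
    have h3 : 0 ≤ ((n : ℝ) - 1) * q := mul_nonneg (by linarith) hq0
    have h4 : 0 ≤ (n : ℝ) * p := mul_nonneg (by linarith) hp0
    nlinarith
  have hp1 : p ≤ 1 := by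
    have h3 : 0 ≤ ((n : ℝ) - 1) * p := mul_nonneg (by linarith) hp0
    have h4 : 0 ≤ ((n : ℝ) + 1) * q := mul_nonneg (by linarith) hq0
    nlinarith
  have m1 : (n : ℝ) * (w * A) = x * A := by rw [hx]; ring
  have m2 : 2 * (n : ℝ) * (w * A) - s = 2 * (x * A) - s := by rw [hx]; ring
  have m3 : ((n : ℝ) + 1) * (w * A) = (x + w) * A := by rw [hx]; ring
  have m4 : 2 * ((n : ℝ) + 1) * (w * A) - s = 2 * ((x + w) * A) - s := by rw [hx]; ring
  rw [m1, m2, m3, m4, ← hp, ← hq]
  have hl0 : 0 ≤ ell A s := le_trans (le_max_left _ _) (le_max_left _ _)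
  have hl1 : A - s ≤ ell A s := le_trans (le_max_right _ _) (le_max_left _ _)
  have hl2 : (4 * A - 3 * s) / 5 ≤ ell A s := le_trans (le_max_left _ _) (le_max_right _ _)
  have hl3 : (2 * A - s) / 5 ≤ ell A s := le_trans (le_max_right _ _) (le_max_right _ _)
  have hwA : 0 ≤ w * A := mul_nonneg hw0.le hA
  rcases le_total s (x * A) with c1 | c1
  · have a1 : x * A ≤ (x + w) * A := by nlinarith
    rw [max_eq_right (by linarith), max_eq_right (by linarith)]
    have h3 : w * (A - s) ≤ w * ell A s := mul_le_mul_of_nonneg_left hl1 hw0.le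
    have h4 : p * (2 * (x * A) - s) + q * (2 * ((x + w) * A) - s) = w * A + w * (A - s) := by
      rw [hxq, hw]; ring
    rw [h4]; linarith
  · rcases le_total ((x + w) * A) s with c2 | c2
    · have a1 : x * A ≤ (x + w) * A := by nlinarith
      rw [max_eq_left (by linarith), max_eq_left (by linarith)]
      have h3 : 0 ≤ w * ell A s := mul_nonneg hw0.le hl0
      have h4 : p * (x * A) + q * ((x + w) * A) = w * A := by
        rw [hxq, hw]; ring
      rw [h4]; linarith
    · rw [max_eq_left (by linarith), max_eq_right (by linarith)]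
      have h4 : p * (x * A) + q * (2 * ((x + w) * A) - s) =
          w * A + q * ((x + w) * A - s) := by
        rw [hxq, hw]; ring
      rw [h4]
      have key : q * ((x + w) * A - s) ≤ w * ell A s := by
        rcases le_total A s with c3 | c3
        · refine le_trans ?_ (mul_le_mul_of_nonneg_left hl3 hw0.le)
          obtain ⟨u, hu⟩ : ∃ u : ℝ, u = (x + w) * A - s := ⟨_, rfl⟩
          have hu0 : 0 ≤ u := by rw [hu]; linarith
          have hu1 : u ≤ p * A := by rw [hu, hxq, hw]; nlinarith
          have e1 : w * ((2 * A - s) / 5) - q * ((x + w) * A - s) =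
              w * A * (1 - p) / 5 + u * (w / 5 - q) := by
            rw [hu, hxq, hw]; ring
          have e2 : 0 ≤ w * A * (1 - p) / 5 + u * (w / 5 - q) := by
            rcases le_total 0 (w / 5 - q) with c | c
            · have := mul_nonneg hwA (sub_nonneg.2 hp1)
              have := mul_nonneg hu0 c
              linarith
            · have h5 : p * A * (w / 5 - q) ≤ u * (w / 5 - q) :=
                mul_le_mul_of_nonpos_right hu1 c
              have h6 : 0 ≤ A * (w / 5 - p * q) := mul_nonneg hA (by rw [hw]; linarith)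
              have h7 : w * A * (1 - p) / 5 + p * A * (w / 5 - q) = A * (w / 5 - p * q) := by
                ring
              linarith
          linarith
        · refine le_trans ?_ (mul_le_mul_of_nonneg_left hl2 hw0.le)
          obtain ⟨v, hv⟩ : ∃ v : ℝ, v = A - s := ⟨_, rfl⟩
          have hv0 : 0 ≤ v := by rw [hv]; linarith
          have hv1 : v ≤ q * A := by rw [hv]; rw [hxq] at c1; nlinarith
          have e1 : w * ((4 * A - 3 * s) / 5) - q * ((x + w) * A - s) =
              A * (w / 5 - p * q) + v * (3 * w / 5 - q) := by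
            rw [hv, hxq, hw]; ring
          have h6 : 0 ≤ A * (w / 5 - p * q) := mul_nonneg hA (by rw [hw]; linarith)
          have e2 : 0 ≤ A * (w / 5 - p * q) + v * (3 * w / 5 - q) := by
            rcases le_total 0 (3 * w / 5 - q) with c | c
            · have := mul_nonneg hv0 c
              linarith
            · have h5 : q * A * (3 * w / 5 - q) ≤ v * (3 * w / 5 - q) :=
                mul_le_mul_of_nonpos_right hv1 c
              have h7 : A * (w / 5 - p * q) + q * A * (3 * w / 5 - q) =
                  w * A * (1 - 2 * q) / 5 := by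
                rw [hw]; ring
              have h8 := mul_nonneg hwA (by linarith : (0 : ℝ) ≤ 1 - 2 * q)
              linarith
          linarith
      linarith

end Pool.Agent.H60.AF
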